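import Pool.Agent.helper1.SOL.SpecN

/-!
Row sol:C2S (MP_cad530_co).
-/

set_option autoImplicit false

namespace Pool.Agent.SOL

open Pool.Agent.helper54.SOG Finset

open scoped BigOperators

/-- adjacency of coordinates -/
def C2S_A (a b : ℤ) : Prop := |a| + |b| + |a - b| = 4

instance (a b : ℤ) : Decidable (C2S_A a b) := by unfold C2S_A; infer_instance

theorem C2S_ab (a b : ℤ) (ha : |a| ≤ 2) (hb : |b| ≤ 2) (hab : |a - b| ≤ 2) : |a| + |b| + |a - b| ≤ 4 := by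
  rw [abs_le] at ha hb hab
  rcases abs_cases a with h1 | h1 <;> rcases abs_cases b with h2 | h2 <;> rcases abs_cases (a - b) with h3 | h3 <;>
    omega

theorem C2S_le (a b : ℤ) (h : C2S_A a b) : |a - b| ≤ 2 := by
  unfold C2S_A at h
  have := abs_sub a b
  omega

theorem C2S_symm {a b : ℤ} (h : C2S_A a b) : C2S_A b a := by
  unfold C2S_A at h ⊢
  rw [abs_sub_comm b a]
  omega

theorem C2S_edge {κ : ℕ} {p q : Vec (3 * κ)} (hp : p ∈ VC (3 * κ) (2 * κ)) (hq : q ∈ VC (3 * κ) (2 * κ)) :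
    p - q ∈ VC (3 * κ) (2 * κ) ↔ ∀ i, C2S_A (p i) (q i) := by
  obtain ⟨hp1, hp2⟩ := hp
  obtain ⟨hq1, hq2⟩ := hq
  have hcard : ∑ _i : Fin (3 * κ), (4 : ℤ) = 12 * κ := by
    simp
    ring
  unfold l1 at hp2 hq2
  constructor
  · rintro ⟨h1, h2⟩
    unfold l1 at h2
    have h3 : ∑ i : Fin (3 * κ), (|p i| + |q i| + |p i - q i|) = ∑ _i : Fin (3 * κ), (4 : ℤ) := by
      rw [Finset.sum_add_distrib, Finset.sum_add_distrib, hp2, hq2, hcard]
      have h2' : ∑ i : Fin (3 * κ), |p i - q i| = 2 * ((2 * κ : ℕ) : ℤ) := h2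
      rw [h2']
      push_cast
      ring
    have h4 := (Finset.sum_eq_sum_iff_of_le (fun i _ => C2S_ab (p i) (q i) (hp1 i) (hq1 i) (h1 i))).1 h3
    exact fun i => h4 i (Finset.mem_univ i)
  · intro h
    refine ⟨fun i => C2S_le _ _ (h i), ?_⟩
    unfold l1
    have h3 : ∑ i : Fin (3 * κ), |(p - q) i| = ∑ i : Fin (3 * κ), ((4 : ℤ) - |p i| - |q i|) := by
      refine Finset.sum_congr rfl fun i _ => ?_
      have := h i
      unfold C2S_A at this
      show |p i - q i| = _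
      omega
    rw [h3, Finset.sum_sub_distrib, Finset.sum_sub_distrib, hp2, hq2, hcard]
    push_cast
    ring

theorem C2S_mem {a : ℤ} (h : |a| ≤ 2) : a ∈ Finset.Icc (-2 : ℤ) 2 := by
  rw [Finset.mem_Icc]
  exact abs_le.1 h

/-- classification -/
theorem C2S_F1 : ∀ a ∈ Finset.Icc (-2 : ℤ) 2, ∀ b ∈ Finset.Icc (-2 : ℤ) 2, C2S_A a b →
    (|a| = 2 ∧ |b| = 2) ∨ (|a| = 2 ∧ |b| = 0) ∨ (|a| = 0 ∧ |b| = 2) ∨ (|a| = 2 ∧ |b| = 1) ∨ (|a| = 1 ∧ |b| = 2) ∨
      (|a| = 1 ∧ |b| = 1) := by decide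

theorem C2S_F2 : ∀ a ∈ Finset.Icc (-2 : ℤ) 2, ∀ b ∈ Finset.Icc (-2 : ℤ) 2, ∀ v ∈ Finset.Icc (-2 : ℤ) 2, C2S_A a b →
    C2S_A a v → C2S_A (b - a) v → v = b ∨ (|v| < |b| ∧ |a| = 1 ∧ |b| = 2) := by decide

/-- pair (1,2), value 0 -/
theorem C2S_L1 : ∀ a ∈ Finset.Icc (-2 : ℤ) 2, ∀ b ∈ Finset.Icc (-2 : ℤ) 2, C2S_A a b → |a| = 1 → |b| = 2 →
    C2S_A b 0 ∧ ¬ C2S_A a 0 ∧ (0 : ℤ) ≠ a ∧ (0 : ℤ) ≠ b - a ∧ |b - a| = 1 ∧
    ∀ v ∈ Finset.Icc (-2 : ℤ) 2, C2S_A a v → C2S_A 0 v → v = b := by decide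

/-- pair (1,2), value b -/
theorem C2S_L2 : ∀ a ∈ Finset.Icc (-2 : ℤ) 2, ∀ b ∈ Finset.Icc (-2 : ℤ) 2, C2S_A a b → |a| = 1 → |b| = 2 →
    C2S_A b b ∧ ∀ v ∈ Finset.Icc (-2 : ℤ) 2, C2S_A a v → C2S_A b v → v = b := by decide

/-- pair (2,1), value a -/
theorem C2S_L3 : ∀ a ∈ Finset.Icc (-2 : ℤ) 2, ∀ b ∈ Finset.Icc (-2 : ℤ) 2, C2S_A a b → |a| = 2 → |b| = 1 →
    C2S_A b a ∧ |b - a| = 1 ∧ ∀ v ∈ Finset.Icc (-2 : ℤ) 2, C2S_A a v → C2S_A a v → |v| = |b| → v = b := by decide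

/-- pair (2,2), value b / 2 -/
theorem C2S_L4 : ∀ a ∈ Finset.Icc (-2 : ℤ) 2, ∀ b ∈ Finset.Icc (-2 : ℤ) 2, C2S_A a b → |a| = 2 → |b| = 2 →
    C2S_A b (b / 2) ∧ |b / 2| = 1 ∧ b / 2 ≠ a ∧ b / 2 ≠ b - a ∧ |b - a| = 0 ∧
    ∀ v ∈ Finset.Icc (-2 : ℤ) 2, C2S_A a v → C2S_A (b / 2) v → v = b := by decide

/-- pair (0,2), value b / 2 -/
theorem C2S_L5 : ∀ a ∈ Finset.Icc (-2 : ℤ) 2, ∀ b ∈ Finset.Icc (-2 : ℤ) 2, C2S_A a b → |a| = 0 → |b| = 2 →
    C2S_A b (b / 2) ∧ |b / 2| = 1 ∧ b / 2 ≠ a ∧ ¬ C2S_A a (b / 2) ∧ b / 2 ≠ b - a ∧ |b - a| = 2 ∧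
    ∀ v ∈ Finset.Icc (-2 : ℤ) 2, C2S_A a v → C2S_A (b / 2) v → v = b := by decide

/-- pair (1,-1), value a -/
theorem C2S_L6 : ∀ a ∈ Finset.Icc (-2 : ℤ) 2, ∀ b ∈ Finset.Icc (-2 : ℤ) 2, C2S_A a b → |a| = 1 → |b| = 1 →
    C2S_A b a ∧ |b - a| = 2 ∧ ¬ C2S_A a a ∧ a ≠ b - a ∧
    ∀ v ∈ Finset.Icc (-2 : ℤ) 2, C2S_A a v → C2S_A a v → |v| = |b| → v = b := by decide

/-- non adjacency of `x` and `y - x` -/
theorem C2S_L7 : ∀ a ∈ Finset.Icc (-2 : ℤ) 2, ∀ b ∈ Finset.Icc (-2 : ℤ) 2, C2S_A a b → |b| ≠ 2 → ¬ C2S_A a (b - a) := by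
  decide

theorem C2S_L8 : ∀ a ∈ Finset.Icc (-2 : ℤ) 2, ∀ b ∈ Finset.Icc (-2 : ℤ) 2, C2S_A a b → b - a = a → |a| = 1 := by
  decide

/-- absolute values of differences -/
theorem C2S_L9 : ∀ a ∈ Finset.Icc (-2 : ℤ) 2, ∀ b ∈ Finset.Icc (-2 : ℤ) 2, C2S_A a b →
    (|a| = 2 ∧ |b| = 2 ∧ |a - b| = 0) ∨ (|a| = 2 ∧ |b| = 0 ∧ |a - b| = 2) ∨ (|a| = 0 ∧ |b| = 2 ∧ |a - b| = 2) ∨
    (|a| = 2 ∧ |b| = 1 ∧ |a - b| = 1) ∨ (|a| = 1 ∧ |b| = 2 ∧ |a - b| = 1) ∨ (|a| = 1 ∧ |b| = 1 ∧ |a - b| = 2) := by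
  decide

/-! ### sums -/

theorem C2S_sum2 {n : ℕ} {f g : Fin n → ℤ} {i j : Fin n} (hij : i ≠ j) (h : ∀ l, l ≠ i → l ≠ j → f l = g l)
    (hs : f i + f j = g i + g j) : ∑ l, f l = ∑ l, g l := by
  have hj : j ∈ (univ.erase i : Finset (Fin n)) := Finset.mem_erase.2 ⟨hij.symm, Finset.mem_univ j⟩
  rw [← Finset.add_sum_erase univ f (Finset.mem_univ i), ← Finset.add_sum_erase univ g (Finset.mem_univ i),
    ← Finset.add_sum_erase (univ.erase i) f hj, ← Finset.add_sum_erase (univ.erase i) g hj]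
  have h1 : ∑ l ∈ (univ.erase i).erase j, f l = ∑ l ∈ (univ.erase i).erase j, g l := by
    refine Finset.sum_congr rfl fun l hl => ?_
    rw [Finset.mem_erase, Finset.mem_erase] at hl
    exact h l hl.2.1 hl.1
  rw [h1]
  linarith

theorem C2S_sumEq {n : ℕ} {v y : Vec n} (hs : ∑ l, |v l| = ∑ l, |y l|) (h : ∀ l, v l = y l ∨ |v l| < |y l|) :
    v = y := by
  have h1 : ∀ l ∈ (univ : Finset (Fin n)), |v l| ≤ |y l| := by
    intro l _
    rcases h l with h2 | h2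
    · rw [h2]
    · exact h2.le
  have h3 := (Finset.sum_eq_sum_iff_of_le h1).1 hs
  funext l
  rcases h l with h2 | h2
  · exact h2
  · exact absurd (h3 l (Finset.mem_univ l)) h2.ne

theorem C2S_sumOne {n : ℕ} {v y : Vec n} (i : Fin n) (hs : ∑ l, |v l| = ∑ l, |y l|) (h : ∀ l, l ≠ i → v l = y l)
    (hi : |v i| = |y i| → v i = y i) : v = y := by
  have h1 : |v i| = |y i| := by
    rw [← Finset.add_sum_erase univ (fun l => |v l|) (Finset.mem_univ i),
      ← Finset.add_sum_erase univ (fun l => |y l|) (Finset.mem_univ i)] at hs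
    have h2 : ∑ l ∈ univ.erase i, |v l| = ∑ l ∈ univ.erase i, |y l| := by
      refine Finset.sum_congr rfl fun l hl => ?_
      rw [h l (Finset.mem_erase.1 hl).1]
    rw [h2] at hs
    exact add_right_cancel hs
  funext l
  by_cases hl : l = i
  · rw [hl]; exact hi h1
  · exact h l hl

/-! ### the criterion -/

structure C2S_H (κ : ℕ) (x y : Vec (3 * κ)) : Prop where
  k1 : 1 ≤ κ
  hx : x ∈ VC (3 * κ) (2 * κ)
  hy : y ∈ VC (3 * κ) (2 * κ)
  hA : ∀ i, C2S_A (x i) (y i)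

theorem C2S_crit {κ : ℕ} {x y : Vec (3 * κ)} (h : C2S_H κ x y) {z : Vec (3 * κ)} (hz : z ∈ VC (3 * κ) (2 * κ))
    (hyz : ∀ i, C2S_A (y i) (z i)) (hne : z ≠ x) (hna : ∃ i, ¬ C2S_A (x i) (z i))
    (hu : ∀ v ∈ VC (3 * κ) (2 * κ), (∀ i, C2S_A (x i) (v i)) → (∀ i, C2S_A (z i) (v i)) → v = y) :
    z ∈ SS (VC (3 * κ) (2 * κ)) x y := by
  refine ⟨hz, (C2S_edge h.hy hz).2 hyz, hne, fun hc => ?_, fun v hv h1 h2 => ?_⟩
  · obtain ⟨i, hi⟩ := hna
    exact hi ((C2S_edge h.hx hz).1 hc i)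
  · exact hu v hv ((C2S_edge h.hx hv).1 h1) ((C2S_edge hz hv).1 h2)

theorem C2S_H.l1x {κ : ℕ} {x y : Vec (3 * κ)} (h : C2S_H κ x y) : ∑ i, |x i| = 4 * κ := by
  have := h.hx.2
  unfold l1 at this
  rw [this]
  push_cast
  ring

theorem C2S_H.l1y {κ : ℕ} {x y : Vec (3 * κ)} (h : C2S_H κ x y) : ∑ i, |y i| = 4 * κ := by
  have := h.hy.2
  unfold l1 at this
  rw [this]
  push_cast
  ring

theorem C2S_H.l1d {κ : ℕ} {x y : Vec (3 * κ)} (h : C2S_H κ x y) : ∑ i, |x i - y i| = 4 * κ := by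
  have := ((C2S_edge h.hx h.hy).2 h.hA).2
  unfold l1 at this
  have h2 : ∑ i, |x i - y i| = 2 * ((2 * κ : ℕ) : ℤ) := this
  rw [h2]
  push_cast
  ring

theorem C2S_H.dmem {κ : ℕ} {x y : Vec (3 * κ)} (h : C2S_H κ x y) : y - x ∈ VC (3 * κ) (2 * κ) :=
  (C2S_edge h.hy h.hx).2 fun i => C2S_symm (h.hA i)

theorem C2S_yz {a b : ℤ} (h : C2S_A a b) : C2S_A b (b - a) := by
  unfold C2S_A at h ⊢
  have h1 : b - (b - a) = a := by ring
  rw [h1, abs_sub_comm b a]
  omega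

theorem C2S_const {κ : ℕ} (c : ℤ) : ∑ _i : Fin (3 * κ), c = 3 * κ * c := by
  simp

theorem C2S_base {κ : ℕ} {x y : Vec (3 * κ)} (h : C2S_H κ x y) : y - x ∈ SS (VC (3 * κ) (2 * κ)) x y := by
  have hk := h.k1
  have mx : ∀ i, x i ∈ Finset.Icc (-2 : ℤ) 2 := fun i => C2S_mem (h.hx.1 i)
  have my : ∀ i, y i ∈ Finset.Icc (-2 : ℤ) 2 := fun i => C2S_mem (h.hy.1 i)
  refine C2S_crit h h.dmem (fun i => C2S_yz (h.hA i)) ?_ ?_ ?_
  · intro hc
    have h1 : ∀ i, |x i| = 1 := fun i => C2S_L8 _ (mx i) _ (my i) (h.hA i) (congrFun hc i)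
    have h2 := h.l1x
    simp only [h1] at h2
    rw [C2S_const] at h2
    have : (1 : ℤ) ≤ κ := by exact_mod_cast hk
    linarith
  · by_contra hc
    push Not at hc
    have h1 : ∀ i, |y i| = 2 := by
      intro i
      by_contra h2
      exact C2S_L7 _ (mx i) _ (my i) (h.hA i) h2 (hc i)
    have h2 := h.l1y
    simp only [h1] at h2
    rw [C2S_const] at h2
    have : (1 : ℤ) ≤ κ := by exact_mod_cast hk
    linarith
  · intro v hv h1 h2
    refine C2S_sumEq ?_ fun l => ?_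
    · rw [h.l1y]
      have := hv.2
      unfold l1 at this
      rw [this]
      push_cast
      ring
    · rcases C2S_F2 _ (mx l) _ (my l) _ (C2S_mem (hv.1 l)) (h.hA l) (h1 l) (h2 l) with h3 | h3
      · exact Or.inl h3
      · exact Or.inr h3.1

theorem C2S_mod {κ : ℕ} {x y : Vec (3 * κ)} (h : C2S_H κ x y) (i j : Fin (3 * κ)) (hij : i ≠ j) (α β : ℤ)
    (hα : |α| ≤ 2) (hβ : |β| ≤ 2) (hAα : C2S_A (y i) α) (hAβ : C2S_A (y j) β)
    (hs : |α| + |β| = |y i - x i| + |y j - x j|) (hna : ¬ C2S_A (x i) α ∨ ¬ C2S_A (x j) β)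
    (hne : α ≠ x i ∨ β ≠ x j) (hnz : α ≠ y i - x i ∨ β ≠ y j - x j)
    (hu : ∀ v : Vec (3 * κ), (∀ l, |v l| ≤ 2) → ∑ l, |v l| = ∑ l, |y l| → (∀ l, C2S_A (x l) (v l)) → C2S_A α (v i) →
      C2S_A β (v j) → (∀ l, l ≠ i → l ≠ j → C2S_A (y l - x l) (v l)) → v = y) :
    ∃ z ∈ SS (VC (3 * κ) (2 * κ)) x y, ∃ z' ∈ SS (VC (3 * κ) (2 * κ)) x y, z ≠ z' := by
  let z : Vec (3 * κ) := Function.update (Function.update (y - x) i α) j β
  have zj : z j = β := Function.update_self _ _ _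
  have zi : z i = α := by
    show Function.update (Function.update (y - x) i α) j β i = α
    rw [Function.update_of_ne hij, Function.update_self]
  have zl : ∀ l, l ≠ i → l ≠ j → z l = y l - x l := by
    intro l h1 h2
    show Function.update (Function.update (y - x) i α) j β l = y l - x l
    rw [Function.update_of_ne h2, Function.update_of_ne h1]
    rfl
  refine ⟨y - x, C2S_base h, z, ?_, ?_⟩
  · refine C2S_crit h ⟨fun l => ?_, ?_⟩ (fun l => ?_) ?_ ?_ ?_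
    · by_cases h1 : l = i
      · rw [h1, zi]; exact hα
      · by_cases h2 : l = j
        · rw [h2, zj]; exact hβ
        · rw [zl l h1 h2]; exact h.dmem.1 l
    · have h1 : ∑ l, |z l| = ∑ l, |y l - x l| := by
        refine C2S_sum2 hij (fun l h1 h2 => by rw [zl l h1 h2]) ?_
        rw [zi, zj]
        exact hs
      unfold l1
      rw [h1]
      exact h.dmem.2
    · by_cases h1 : l = i
      · rw [h1, zi]; exact hAα
      · by_cases h2 : l = j
        · rw [h2, zj]; exact hAβ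
        · rw [zl l h1 h2]; exact C2S_yz (h.hA l)
    · intro hc
      rcases hne with h1 | h1
      · exact h1 (by rw [← zi, hc])
      · exact h1 (by rw [← zj, hc])
    · rcases hna with h1 | h1
      · exact ⟨i, by rw [zi]; exact h1⟩
      · exact ⟨j, by rw [zj]; exact h1⟩
    · intro v hv h1 h2
      refine hu v hv.1 ?_ h1 (by rw [← zi]; exact h2 i) (by rw [← zj]; exact h2 j)
        (fun l h3 h4 => by rw [← zl l h3 h4]; exact h2 l)
      rw [h.l1y]
      have := hv.2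
      unfold l1 at this
      rw [this]
      push_cast
      ring
  · intro hc
    rcases hnz with h1 | h1
    · exact h1 (by rw [← zi, ← hc]; rfl)
    · exact h1 (by rw [← zj, ← hc]; rfl)

theorem C2S (hBTY : BTY_stmt) : C2S_stmt := by
  intro κ hκ x y hx hy hxy
  have h : C2S_H κ x y := ⟨hκ, hx, hy, (C2S_edge hx hy).1 hxy⟩
  have hk : (1 : ℤ) ≤ κ := by exact_mod_cast hκ
  have mx : ∀ i, x i ∈ Finset.Icc (-2 : ℤ) 2 := fun i => C2S_mem (h.hx.1 i)
  have my : ∀ i, y i ∈ Finset.Icc (-2 : ℤ) 2 := fun i => C2S_mem (h.hy.1 i)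
  have hA := h.hA
  have cls := fun i => C2S_L9 _ (mx i) _ (my i) (hA i)
  have lx := h.l1x
  have ly := h.l1y
  have ld := h.l1d
  -- no (1,2): all coordinates of `v` outside are determined
  have noE : (∀ l, ¬ (|x l| = 1 ∧ |y l| = 2)) → ∀ (v : Vec (3 * κ)), (∀ l, |v l| ≤ 2) → (∀ l, C2S_A (x l) (v l)) →
      ∀ l, C2S_A (y l - x l) (v l) → v l = y l := by
    intro hE v hv h1 l h2
    rcases C2S_F2 _ (mx l) _ (my l) _ (C2S_mem (hv l)) (hA l) (h1 l) h2 with h3 | h3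
    · exact h3
    · exact absurd h3.2 (hE l)
  by_cases hE : ∃ i, |x i| = 1 ∧ |y i| = 2
  · obtain ⟨i, hi1, hi2⟩ := hE
    obtain ⟨a1, a2, a3, a4, a5, a6⟩ := C2S_L1 _ (mx i) _ (my i) (hA i) hi1 hi2
    by_cases hE2 : ∃ j, j ≠ i ∧ |x j| = 1 ∧ |y j| = 2
    · -- two pairs (1,2)
      obtain ⟨j, hji, hj1, hj2⟩ := hE2
      obtain ⟨b1, b2⟩ := C2S_L2 _ (mx j) _ (my j) (hA j) hj1 hj2
      obtain ⟨-, -, -, -, b5, -⟩ := C2S_L1 _ (mx j) _ (my j) (hA j) hj1 hj2
      refine C2S_mod h i j hji.symm 0 (y j) (by norm_num) (h.hy.1 j) a1 b1 (by rw [hj2, a5, b5]; norm_num)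
        (Or.inl a2) (Or.inl a3) (Or.inl a4) ?_
      intro v hv hs h1 h2 h3 h4
      refine C2S_sumEq hs fun l => ?_
      by_cases hli : l = i
      · rw [hli]; exact Or.inl (a6 _ (C2S_mem (hv i)) (h1 i) h2)
      · by_cases hlj : l = j
        · rw [hlj]; exact Or.inl (b2 _ (C2S_mem (hv j)) (h1 j) h3)
        · rcases C2S_F2 _ (mx l) _ (my l) _ (C2S_mem (hv l)) (hA l) (h1 l) (h4 l hli hlj) with h5 | h5
          · exact Or.inl h5
          · exact Or.inr h5.1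
    · -- exactly one pair (1,2): there is a pair (2,1)
      push Not at hE2
      have hD : ∃ j, |x j| = 2 ∧ |y j| = 1 := by
        by_contra hc
        push Not at hc
        have h1 : ∀ l ∈ univ.erase i, (2 : ℤ) ∣ |x l - y l| := by
          intro l hl
          have hl' := (Finset.mem_erase.1 hl).1
          rcases cls l with c | c | c | c | c | c
          · rw [c.2.2]; exact dvd_zero 2
          · rw [c.2.2]
          · rw [c.2.2]
          · exact absurd c.2.1 (hc l c.1)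
          · exact absurd c.2.1 (hE2 l hl' c.1)
          · rw [c.2.2]
        have h2 := Finset.dvd_sum h1
        rw [← Finset.add_sum_erase univ (fun l => |x l - y l|) (Finset.mem_univ i)] at ld
        have h3 : |x i - y i| = 1 := by rw [abs_sub_comm]; exact a5
        simp only [h3] at ld
        omega
      obtain ⟨j, hj1, hj2⟩ := hD
      have hij : j ≠ i := by
        intro hc
        rw [hc, hi1] at hj1
        norm_num at hj1
      obtain ⟨b1, b2, b3⟩ := C2S_L3 _ (mx j) _ (my j) (hA j) hj1 hj2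
      refine C2S_mod h j i hij (x j) 0 (h.hx.1 j) (by norm_num) b1 a1 (by rw [hj1, a5, b2]; norm_num)
        (Or.inr a2) (Or.inr a3) (Or.inr a4) ?_
      intro v hv hs h1 h2 h3 h4
      refine C2S_sumOne j hs (fun l hlj => ?_) (fun h5 => b3 _ (C2S_mem (hv j)) (h1 j) h2 h5)
      by_cases hli : l = i
      · rw [hli]; exact a6 _ (C2S_mem (hv i)) (h1 i) h3
      · rcases C2S_F2 _ (mx l) _ (my l) _ (C2S_mem (hv l)) (hA l) (h1 l) (h4 l hlj hli) with h5 | h5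
        · exact h5
        · exact absurd h5.2.2 (hE2 l hli h5.2.1)
  · have hE' : ∀ l, ¬ (|x l| = 1 ∧ |y l| = 2) := fun l hl => hE ⟨l, hl⟩
    have hnoE := noE hE'
    by_cases hTa : ∃ i, |x i| = 2 ∧ |y i| = 2
    · obtain ⟨i, hi1, hi2⟩ := hTa
      obtain ⟨a1, a2, a3, a4, a5, a6⟩ := C2S_L4 _ (mx i) _ (my i) (hA i) hi1 hi2
      have ha2 : |y i / 2| ≤ 2 := by rw [a2]; norm_num
      by_cases hTc : ∃ j, |x j| = 0 ∧ |y j| = 2
      · obtain ⟨j, hj1, hj2⟩ := hTc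
        obtain ⟨b1, b2, b3, b4, b5, b6, b7⟩ := C2S_L5 _ (mx j) _ (my j) (hA j) hj1 hj2
        have hij : i ≠ j := by
          intro hc
          rw [hc, hj1] at hi1
          norm_num at hi1
        refine C2S_mod h i j hij (y i / 2) (y j / 2) ha2 (by rw [b2]; norm_num) a1 b1
          (by rw [a2, b2, a5, b6]; norm_num) (Or.inr b4) (Or.inr b3) (Or.inr b5) ?_
        intro v hv hs h1 h2 h3 h4
        funext l
        by_cases hli : l = i
        · rw [hli]; exact a6 _ (C2S_mem (hv i)) (h1 i) h2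
        · by_cases hlj : l = j
          · rw [hlj]; exact b7 _ (C2S_mem (hv j)) (h1 j) h3
          · exact hnoE v hv h1 l (h4 l hli hlj)
      · -- no (0,2): there is (1,-1)
        push Not at hTc
        have hF : ∃ j, |x j| = 1 ∧ |y j| = 1 := by
          by_contra hc
          push Not at hc
          have h1 : ∀ l, |x l| = 2 := by
            intro l
            rcases cls l with c | c | c | c | c | c
            · exact c.1
            · exact c.1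
            · exact absurd c.2.1 (hTc l c.1)
            · exact c.1
            · exact absurd ⟨c.1, c.2.1⟩ (hE' l)
            · exact absurd c.2.1 (hc l c.1)
          simp only [h1] at lx
          rw [C2S_const] at lx
          linarith
        obtain ⟨j, hj1, hj2⟩ := hF
        obtain ⟨b1, b2, b3, b4, b5⟩ := C2S_L6 _ (mx j) _ (my j) (hA j) hj1 hj2
        have hij : j ≠ i := by
          intro hc
          rw [hc, hi1] at hj1
          norm_num at hj1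
        refine C2S_mod h j i hij (x j) (y i / 2) (h.hx.1 j) ha2 b1 a1 (by rw [hj1, a2, b2, a5]; norm_num)
          (Or.inl b3) (Or.inr a3) (Or.inl b4) ?_
        intro v hv hs h1 h2 h3 h4
        refine C2S_sumOne j hs (fun l hlj => ?_) (fun h5 => b5 _ (C2S_mem (hv j)) (h1 j) h2 h5)
        by_cases hli : l = i
        · rw [hli]; exact a6 _ (C2S_mem (hv i)) (h1 i) h3
        · exact hnoE v hv h1 l (h4 l hlj hli)
    · -- no (2,2): there are (2,1) and (0,2)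
      push Not at hTa
      have hD : ∃ j, |x j| = 2 ∧ |y j| = 1 := by
        by_contra hc
        push Not at hc
        have h1 : ∀ l, |x l - y l| = 2 := by
          intro l
          rcases cls l with c | c | c | c | c | c
          · exact absurd c.2.1 (hTa l c.1)
          · exact c.2.2
          · exact c.2.2
          · exact absurd c.2.1 (hc l c.1)
          · exact absurd ⟨c.1, c.2.1⟩ (hE' l)
          · exact c.2.2
        simp only [h1] at ld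
        rw [C2S_const] at ld
        linarith
      have hC : ∃ j, |x j| = 0 ∧ |y j| = 2 := by
        by_contra hc
        push Not at hc
        have h1 : ∀ l ∈ (univ : Finset (Fin (3 * κ))), (1 : ℤ) ≤ 2 * |x l| - 3 * |y l| + |x l - y l| := by
          intro l _
          rcases cls l with c | c | c | c | c | c
          · exact absurd c.2.1 (hTa l c.1)
          · rw [c.1, c.2.1, c.2.2]; norm_num
          · exact absurd c.2.1 (hc l c.1)
          · rw [c.1, c.2.1, c.2.2]; norm_num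
          · exact absurd ⟨c.1, c.2.1⟩ (hE' l)
          · rw [c.1, c.2.1, c.2.2]; norm_num
        have h2 := Finset.sum_le_sum h1
        rw [C2S_const, Finset.sum_add_distrib, Finset.sum_sub_distrib, ← Finset.mul_sum, ← Finset.mul_sum, lx, ly,
          ld] at h2
        linarith
      obtain ⟨i, hi1, hi2⟩ := hD
      obtain ⟨j, hj1, hj2⟩ := hC
      obtain ⟨a1, a2, a3⟩ := C2S_L3 _ (mx i) _ (my i) (hA i) hi1 hi2
      obtain ⟨b1, b2, b3, b4, b5, b6, b7⟩ := C2S_L5 _ (mx j) _ (my j) (hA j) hj1 hj2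
      have hij : i ≠ j := by
        intro hc
        rw [hc, hj1] at hi1
        norm_num at hi1
      refine C2S_mod h i j hij (x i) (y j / 2) (h.hx.1 i) (by rw [b2]; norm_num) a1 b1
        (by rw [hi1, b2, a2, b6]; norm_num) (Or.inr b4) (Or.inr b3) (Or.inr b5) ?_
      intro v hv hs h1 h2 h3 h4
      refine C2S_sumOne i hs (fun l hli => ?_) (fun h5 => a3 _ (C2S_mem (hv i)) (h1 i) h2 h5)
      by_cases hlj : l = j
      · rw [hlj]; exact b7 _ (C2S_mem (hv j)) (h1 j) h3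
      · exact hnoE v hv h1 l (h4 l hli hlj)

end Pool.Agent.SOL
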